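import Pool.Agent.Y667.QKR.QF
import Pool.Agent.Y154.QK.PARE

/-!
# Project QK: the main theorems with the root numbers
-/

set_option autoImplicit false

namespace Pool.Agent.Y667.QK.R

open Finset Filter Pool.Agent.W262.RK Pool.Agent.W307.RT Pool.Agent.W307.RS Pool.Agent.W307.SE
  Pool.Agent.W307.FK Pool.Agent.Y667.RP Pool.Agent.Y667.RZ

theorem pare : St_PARE := Pool.Agent.Y154.QK.PARE Pool.Agent.Y212.RZ.LAG

open Classical in
/-- **Main theorem of the project**, ordering by the height. -/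
theorem mainH (m N : ℕ) :
    ∃ L : Finset (Fin m → ℕ), (∀ d ∈ L, Tup m N d) ∧ ∃ δ : ℝ, 0 < δ ∧ ∃ H0 : ℕ, ∀ H : ℕ, H0 ≤ H →
      ∃ d ∈ L, δ * ((Cv 2 H).card : ℝ) ≤
        (((Cv 2 H).filter (TwR (fun j => (d j : ℤ)))).card : ℝ) := main_h pare m N

open Classical in
/-- **Main theorem of the project**, ordering by the minimal discriminant. -/
theorem mainD (m N : ℕ) :
    ∃ L : Finset (Fin m → ℕ), (∀ d ∈ L, Tup m N d) ∧ ∃ δ : ℝ, 0 < δ ∧ ∃ Z0 : ℕ, ∀ Z : ℕ, Z0 ≤ Z →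
      ∃ d ∈ L, δ * ((Pool.Agent.TH344.DS.Dv Z).card : ℝ) ≤
        (((Pool.Agent.TH344.DS.Dv Z).filter (TwR (fun j => (d j : ℤ)))).card : ℝ) :=
  main_d pare m N

open Classical in
/-- **The rank over `ℚ(√f)` and the root numbers.** -/
theorem mainF {f : ℕ} (hf : f.Prime) (h8 : f % 8 = 1) :
    ∃ c : ℝ, 0 < c ∧ ∃ H0 : ℕ, ∀ H : ℕ, H0 ≤ H →
      c * ((Cv 2 H).card : ℝ) ≤ (((Cv 2 H).filter (TQR f)).card : ℝ) := curvesQR pare hf h8

end Pool.Agent.Y667.QK.R
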