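import Pool.Agent.Y667.QKR.Main

/-!
# Project QK: the multiplicities of the two characters of `ℚ(√f)`
-/

set_option autoImplicit false

namespace Pool.Agent.Y667.QK.R

open Finset Pool.Agent.W262.RK Pool.Agent.W307.RT Pool.Agent.W307.RS Pool.Agent.W307.SE
  Pool.Agent.W307.FK Pool.Agent.Y667.RP Pool.Agent.Y667.RZ Pool.Agent.Y667.PA

/-- the multiplicities are at most the ranks of the two curves -/
theorem mult_bd {f : ℕ} (hf0 : f ≠ 0) {c : ℤ × ℤ} (hD : 4 * c.1 ^ 3 + 27 * c.2 ^ 2 ≠ 0)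
    (hT : HasT 2 (Sh c.1 c.2))
    (F : Type) [Field F] [NumberField F] [IsGalois ℚ F] (χ : (F ≃ₐ[ℚ] F) →* ℤˣ)
    (s : F) (hs : s ^ 2 = (f : F)) (hσ : ∀ σ : F ≃ₐ[ℚ] F, σ s = (((χ σ : ℤˣ) : ℤ) : F) * s) :
    Module.finrank ℤ (Pool.Agent.W307.AT.Part F 1 (Sh c.1 c.2)) ≤
      Module.finrank ℤ (Sh c.1 c.2).toAffine.Point ∧
    Module.finrank ℤ (Pool.Agent.W307.AT.Part F χ (Sh c.1 c.2)) ≤
      Module.finrank ℤ (Sh ((f : ℤ) ^ 2 * c.1) ((f : ℤ) ^ 3 * c.2)).toAffine.Point := by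
  have hfI : (f : ℤ) ≠ 0 := by exact_mod_cast hf0
  obtain ⟨F', -, hF'⟩ := Pool.Agent.W513.FK.parf
  obtain ⟨-, -, -, -, -, e1, e2, e3, hr, -, -⟩ := hF' c hD hT
  obtain ⟨φ, hφ⟩ := Pool.Agent.W605.AT.dsc F χ f s hfI (by rw [hs]; norm_num) hσ c.1 c.2
  obtain ⟨ψ, hψ⟩ := Pool.Agent.W605.AT.dsc F 1 1 1 (by norm_num) (by norm_num)
    (by intro σ; simp) c.1 c.2
  have f1 := Pool.Agent.W307.RG.fin_tw hD hr (d := f) hfI
  have f2 := Pool.Agent.W307.RG.fin_tw hD hr (d := 1) (by norm_num)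
  have g1 := LinearMap.finrank_le_finrank_of_injective (f := φ.toIntLinearMap) hφ
  have g2 := LinearMap.finrank_le_finrank_of_injective (f := ψ.toIntLinearMap) hψ
  have e1 : (1 : ℤ) ^ 2 * c.1 = c.1 := by ring
  have e2 : (1 : ℤ) ^ 3 * c.2 = c.2 := by ring
  rw [e1, e2] at g2
  exact ⟨g2, g1⟩

/-- the sum of the ranks -/
lemma tq_of {f : ℕ} {c : ℤ × ℤ} (h : TQR f c) : QF.TQ f c := by
  unfold QF.TQ
  rcases h with ⟨-, -, h1, h2⟩ | ⟨-, -, h1, h2⟩ <;> omega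

end Pool.Agent.Y667.QK.R
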