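import Pool.Agent.Y667.QKR.MainT
import Pool.Agent.Y667.QK.Core2

/-!
# Project QK: many curves for one multiquadratic field, with the root numbers
-/

set_option autoImplicit false

namespace Pool.Agent.Y667.QK.R

open Finset Filter Pool.Agent.W262.RK Pool.Agent.W307.RT Pool.Agent.W307.RS Pool.Agent.W307.SE
  Pool.Agent.W307.FK Pool.Agent.Y667.RP Pool.Agent.Y667.RZ Pool.Agent.Y667.PA Pool.Agent.Y285.RP

/-- scaling of the equation -/
lemma root_scale {A B r : ℚ} (hr : r ≠ 0) {w : ℤ}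
    (h : HasRootNumber ⟨0, 0, 0, A, B⟩ w) :
    HasRootNumber ⟨0, 0, 0, r ^ 4 * A, r ^ 6 * B⟩ w := by
  obtain ⟨V, d, h1, h2, h3, h4, ⟨C, hC⟩, h5⟩ := h
  refine ⟨V, d, h1, h2, h3, h4, ⟨C * ⟨Units.mk0 r hr, 0, 0, 0⟩, ?_⟩, h5⟩
  rw [mul_smul, ← hC]
  congr 1
  apply WeierstrassCurve.ext
  · simp [WeierstrassCurve.variableChange_a₁]
  · simp [WeierstrassCurve.variableChange_a₂]
  · simp [WeierstrassCurve.variableChange_a₃]
  · rw [WeierstrassCurve.variableChange_a₄]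
    simp only [Units.val_inv_eq_inv_val, Units.val_mk0]
    field_simp
    ring
  · rw [WeierstrassCurve.variableChange_a₆]
    simp only [Units.val_inv_eq_inv_val, Units.val_mk0]
    field_simp
    ring

/-- the root number of the twist of the curve -/
lemma root_tw {τ τ' r d x1 x2 k w : ℤ} (hr : r ≠ 0) (h : d * τ = τ' * r ^ 2)
    (hw : HasRootNumber ⟨0, 0, 0, ((cc (τ' * x1) (τ' * x2) (τ' * k)).1 : ℚ),
      ((cc (τ' * x1) (τ' * x2) (τ' * k)).2 : ℚ)⟩ w) :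
    HasRootNumber ⟨0, 0, 0, ((d ^ 2 * (cc (τ * x1) (τ * x2) (τ * k)).1 : ℤ) : ℚ),
      ((d ^ 3 * (cc (τ * x1) (τ * x2) (τ * k)).2 : ℤ) : ℚ)⟩ w := by
  have hrq : (r : ℚ) ≠ 0 := by exact_mod_cast hr
  have e1 : d ^ 2 * (cc (τ * x1) (τ * x2) (τ * k)).1 = r ^ 4 * (cc (τ' * x1) (τ' * x2) (τ' * k)).1 := by
    rw [Pool.Agent.Y697.QK.cct1, Pool.Agent.Y697.QK.cct1]
    linear_combination ((d * τ + τ' * r ^ 2) * (cc x1 x2 k).1) * h
  have e2 : d ^ 3 * (cc (τ * x1) (τ * x2) (τ * k)).2 = r ^ 6 * (cc (τ' * x1) (τ' * x2) (τ' * k)).2 := by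
    rw [Pool.Agent.Y697.QK.cct2, Pool.Agent.Y697.QK.cct2]
    linear_combination (((d * τ) ^ 2 + d * τ * (τ' * r ^ 2) + (τ' * r ^ 2) ^ 2) *
      (cc x1 x2 k).2) * h
  have := root_scale hrq hw
  rw [e1, e2]
  push_cast
  exact this

/-- the twists by the products of the `d i` have 2-Selmer groups of order four and root number one -/
def TwR {m : ℕ} (d : Fin m → ℤ) (c : ℤ × ℤ) : Prop := TwS d c ∧ ∀ T : Finset (Fin m),
  HasRootNumber ⟨0, 0, 0, (((∏ i ∈ T, d i) ^ 2 * c.1 : ℤ) : ℚ),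
    (((∏ i ∈ T, d i) ^ 3 * c.2 : ℤ) : ℚ)⟩ 1

/-- the pairs for which the twist by `τ` has a 2-Selmer group of order four and root number one -/
def GxR (f β D X τ : ℕ) (x : ℕ × ℕ) : Prop := Gx f β D X τ x ∧ RN τ x.1 x.2 1

lemma good_orR {f β D t X : ℕ} {x : ℕ × ℕ} (h : GoodR f β D t X x) :
    GxR f β D X t x ∨ GxR f β D X (f * t) x := by
  obtain ⟨h1, h2, h3, h4, h5, h6, h7, h8, h9, h10, h11⟩ := h
  rcases h11 with h11 | h11
  · exact Or.inl ⟨⟨⟨h1, h2, h3, h4, h5, h6, h8⟩, h7, h9, h11.1⟩, h11.2.2.1⟩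
  · exact Or.inr ⟨⟨⟨h1, h2, h3, h4, h5, h6, h8⟩, h7, h10, h11.2.1⟩, h11.2.2.2⟩

open Classical in
theorem core (hMT : St_MAINTR) (hBOX : St_BOX) (hCVT : St_CVT) (hPRM : St_PRM) {f β : ℕ}
    (hfl : Flip f β) (m N : ℕ) :
    ∃ (n : ℕ) (q : Fin m → Fin n → ℕ),
      (∀ j j' i i', q j i = q j' i' → j = j' ∧ i = i') ∧ (∀ j i, (q j i).Prime ∧ N < q j i) ∧
      ∃ δ : ℝ, 0 < δ ∧ ∃ H0 : ℕ, ∀ H : ℕ, H0 ≤ H →
        ∃ i i' : Fin m → Fin n, (∀ j, i j ≠ i' j) ∧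
          δ * ((Cv 2 H).card : ℝ) ≤ (((Cv 2 H).filter
            (TwR (fun j => ((q j (i j) * q j (i' j) : ℕ) : ℤ)))).card : ℝ) := by
  have hf0 : 0 < f := hfl.pr.pos
  have hfr : (0 : ℝ) < f := by exact_mod_cast hf0
  obtain ⟨c, hc, ε, hε, z, hM⟩ := hMT f β hfl m
  obtain ⟨n, c', hn, hc', hB⟩ := hBOX m (c * (f : ℝ) ^ 2 / 8) (by positivity)
  obtain ⟨p, hpi, hpp, hpz, hAd, hsum⟩ := hPRM f hfl.pr hfl.m8 (m * n) (max N z) ε hε
  set D := ∏ i, p i with hDdef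
  set q : Fin m → Fin n → ℕ := fun j i => p (finProdFinEquiv (j, i)) with hq
  have hqp : ∀ j i, (q j i).Prime := fun j i => hpp _
  have hD0 : 0 < D := prod_pos fun i _ => (hpp i).pos
  have hDr : (0 : ℝ) < D := by exact_mod_cast hD0
  obtain ⟨X0, hX0⟩ := hM D hAd (fun x hx => by
    obtain ⟨i, rfl⟩ := mem_pf_prod hpp hx
    exact (le_max_right _ _).trans_lt (hpz i)) (by
    refine le_trans ?_ hsum
    have h1 : D.primeFactors ⊆ univ.image p := by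
      intro x hx
      obtain ⟨i, rfl⟩ := mem_pf_prod hpp hx
      exact mem_image.2 ⟨i, mem_univ _, rfl⟩
    refine (sum_le_sum_of_subset_of_nonneg h1 fun x _ _ => by positivity).trans (le_of_eq ?_)
    rw [sum_image (fun x _ y _ h => hpi h)])
  have hfD : 0 < f * D := Nat.mul_pos hf0 hD0
  obtain ⟨K, hK, hcv⟩ := hCVT (f * D) hfD
  obtain ⟨H0, hH0⟩ := hcv (max X0 (f * D))
  refine ⟨n, q, ?_, fun j i => ⟨hqp j i, (le_max_left _ _).trans_lt (hpz _)⟩,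
    c' * (c / 2) / ((D : ℝ) ^ 2 * K), by positivity, H0, fun H hH => ?_⟩
  · intro j j' i i' h
    have := finProdFinEquiv.injective (hpi h)
    exact Prod.mk.injEq _ _ _ _ ▸ this
  obtain ⟨X, hX1, hX2, hX3, hX4⟩ := hH0 H hH
  have hXX0 : X0 ≤ X := (le_max_left _ _).trans hX1
  have hXD : f * D ≤ X := (le_max_right _ _).trans hX1
  have hsqf : Squarefree (f * D) := hAd.sqf
  set Ω := (Icc 1 X ×ˢ Icc 1 X).filter (fun x => RC f β (f * D) x.1 x.2) with hΩ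
  set G : ℕ → (Fin m → Fin n) → Finset (ℕ × ℕ) := fun g t =>
    (Icc 1 X ×ˢ Icc 1 X).filter (GxR f β D X (g * tt q t)) with hG
  have hsub : ∀ g t, G g t ⊆ Ω := by
    intro g t x hx
    rw [hG, mem_filter] at hx
    rw [hΩ, mem_filter]
    exact ⟨hx.1, hx.2.1.2.1⟩
  have hlow : ∀ t : Fin m → Fin n,
      c * (X : ℝ) ^ 2 / (D : ℝ) ^ 2 ≤ ((G 1 t).card : ℝ) + ((G f t).card : ℝ) := by
    intro t
    refine (hX0 X hXX0 (tt q t) (Nat.mem_divisors.2 ⟨tt_dvd t, hD0.ne'⟩)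
      (card_pf_tt hqp t)).trans ?_
    have h1 : (Icc 1 X ×ˢ Icc 1 X).filter (GoodR f β D (tt q t) X) ⊆ G 1 t ∪ G f t := by
      intro x hx
      rw [mem_filter] at hx
      rw [mem_union, hG, mem_filter, mem_filter, one_mul]
      rcases good_orR hx.2 with h | h
      · exact Or.inl ⟨hx.1, h⟩
      · exact Or.inr ⟨hx.1, h⟩
    exact_mod_cast (card_le_card h1).trans (card_union_le _ _)
  have hnm : ((n : ℝ) ^ m) = ((univ : Finset (Fin m → Fin n)).card : ℝ) := by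
    rw [card_univ, Fintype.card_fun, Fintype.card_fin, Fintype.card_fin]
    push_cast
    rfl
  have hsumG : (n : ℝ) ^ m * (c * (X : ℝ) ^ 2 / (D : ℝ) ^ 2) ≤
      ∑ t, ((G 1 t).card : ℝ) + ∑ t, ((G f t).card : ℝ) := by
    rw [← sum_add_distrib, hnm, ← nsmul_eq_mul]
    exact card_nsmul_le_sum _ _ _ fun t _ => hlow t
  have hΩle : (Ω.card : ℝ) ≤ 4 * (X : ℝ) ^ 2 / ((f * D : ℕ) : ℝ) ^ 2 := card_RC hsqf hXD
  obtain ⟨g, hg, hgs⟩ : ∃ g : ℕ, (g = 1 ∨ g = f) ∧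
      (n : ℝ) ^ m * (c * (X : ℝ) ^ 2 / (D : ℝ) ^ 2) / 2 ≤ ∑ t, ((G g t).card : ℝ) := by
    by_cases h : (n : ℝ) ^ m * (c * (X : ℝ) ^ 2 / (D : ℝ) ^ 2) / 2 ≤ ∑ t, ((G 1 t).card : ℝ)
    · exact ⟨1, Or.inl rfl, h⟩
    · refine ⟨f, Or.inr rfl, ?_⟩
      push Not at h
      linarith
  have hbox : c * (f : ℝ) ^ 2 / 8 * (n : ℝ) ^ m * (Ω.card : ℝ) ≤ ∑ t, ((G g t).card : ℝ) := by
    refine le_trans ?_ hgs
    calc c * (f : ℝ) ^ 2 / 8 * (n : ℝ) ^ m * (Ω.card : ℝ)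
        ≤ c * (f : ℝ) ^ 2 / 8 * (n : ℝ) ^ m * (4 * (X : ℝ) ^ 2 / ((f * D : ℕ) : ℝ) ^ 2) :=
          mul_le_mul_of_nonneg_left hΩle (by positivity)
      _ = (n : ℝ) ^ m * (c * (X : ℝ) ^ 2 / (D : ℝ) ^ 2) / 2 := by
          push_cast
          field_simp
          ring
  have hn0 : (0 : ℝ) < (n : ℝ) ^ m := by
    have : (0 : ℝ) < n := by exact_mod_cast (by omega : 0 < n)
    positivity
  have hΩge : c * (X : ℝ) ^ 2 / (D : ℝ) ^ 2 / 2 ≤ (Ω.card : ℝ) := by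
    have h1 : ∑ t, ((G g t).card : ℝ) ≤ (n : ℝ) ^ m * (Ω.card : ℝ) := by
      rw [hnm, ← nsmul_eq_mul]
      exact sum_le_card_nsmul _ _ _ fun t _ => by exact_mod_cast card_le_card (hsub g t)
    have h2 := hgs.trans h1
    rw [mul_div_assoc] at h2
    exact le_of_mul_le_mul_left h2 hn0
  obtain ⟨i, i', hne, hcard⟩ := hB (ℕ × ℕ) Ω (G g) (hsub g) hbox
  refine ⟨i, i', hne, ?_⟩
  set W := Ω.filter (fun x => ∀ S : Finset (Fin m),
    x ∈ G g (fun j => if j ∈ S then i' j else i j)) with hW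
  have hcard' : c' * (Ω.card : ℝ) ≤ (W.card : ℝ) := by
    rw [hW]
    convert hcard
  have hgf : g ∣ f := by
    rcases hg with rfl | rfl
    · exact one_dvd _
    · exact dvd_rfl
  have hg0 : g ≠ 0 := by
    rcases hg with rfl | rfl
    · exact one_ne_zero
    · exact hf0.ne'
  have hτd : g * tt q i ∣ f * D := mul_dvd_mul hgf (tt_dvd i)
  have hWx : ∀ x ∈ W, ∀ S : Finset (Fin m),
      GxR f β D X (g * tt q (fun j => if j ∈ S then i' j else i j)) x := by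
    intro x hx S
    rw [hW, mem_filter] at hx
    have := hx.2 S
    rw [hG, mem_filter] at this
    exact this.2
  have hWle : W.card ≤ ((Cv 2 H).filter
      (TwR (fun j => ((q j (i j) * q j (i' j) : ℕ) : ℤ)))).card := by
    refine hX4 (g * tt q i) W _ (Nat.pos_of_dvd_of_pos hτd hfD) (Nat.le_of_dvd hfD hτd)
      (hsqf.squarefree_of_dvd hτd) (fun x hx => (hWx x hx ∅).1.1) fun x hx k hk => ?_
    have hu0 : ∀ j, ((q j (i j) : ℕ) : ℤ) ≠ 0 := fun j => by exact_mod_cast (hqp _ _).ne_zero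
    have hv0 : ∀ j, ((q j (i' j) : ℕ) : ℤ) ≠ 0 := fun j => by exact_mod_cast (hqp _ _).ne_zero
    have hid : ∀ T : Finset (Fin m), (∏ j ∈ T, ((q j (i j) * q j (i' j) : ℕ) : ℤ)) * ((g * tt q i : ℕ) : ℤ) =
        ((g * tt q (fun j => if j ∈ T then i' j else i j) : ℕ) : ℤ) *
          (∏ j ∈ T, ((q j (i j) : ℕ) : ℤ)) ^ 2 := by
      intro T
      have h1 := prod_tw (fun j => ((q j (i j) : ℕ) : ℤ)) (fun j => ((q j (i' j) : ℕ) : ℤ)) T
      have h2 : ((tt q (fun j => if j ∈ T then i' j else i j) : ℕ) : ℤ) =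
          ∏ j, (if j ∈ T then ((q j (i' j) : ℕ) : ℤ) else ((q j (i j) : ℕ) : ℤ)) := by
        unfold tt
        rw [Nat.cast_prod]
        refine prod_congr rfl fun j _ => ?_
        by_cases hjT : j ∈ T
        · simp only [hjT, if_true]
        · simp only [hjT, if_false]
      have h3 : ((tt q i : ℕ) : ℤ) = ∏ j, ((q j (i j) : ℕ) : ℤ) := by
        unfold tt
        rw [Nat.cast_prod]
      push_cast at h1 h2 h3 ⊢
      rw [h2, h3]
      linear_combination (g : ℤ) * h1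
    refine ⟨fun T => ?_, fun T => ?_⟩
    · obtain ⟨⟨⟨b1, b2, b3, b4, -⟩, -, hfin, hcd⟩, -⟩ := hWx x hx T
      obtain ⟨s1, s2⟩ := sel_tw (τ := ((g * tt q i : ℕ) : ℤ))
        (τ' := ((g * tt q (fun j => if j ∈ T then i' j else i j) : ℕ) : ℤ))
        (r := ∏ j ∈ T, ((q j (i j) : ℕ) : ℤ)) (d := ∏ j ∈ T, ((q j (i j) * q j (i' j) : ℕ) : ℤ))
        (x1 := (x.1 : ℤ)) (x2 := (x.2 : ℤ)) (k := k) hk (by omega) (by omega)
        (by exact_mod_cast (Nat.pos_of_dvd_of_pos hτd hfD).ne')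
        (prod_ne_zero_iff.2 fun j _ => by
          rw [Nat.cast_mul]
          exact mul_ne_zero (hu0 j) (hv0 j))
        (prod_ne_zero_iff.2 fun j _ => hu0 j) (hid T) hfin
      exact ⟨s1, s2.trans hcd⟩
    · obtain ⟨-, hRN⟩ := hWx x hx T
      exact root_tw (τ := ((g * tt q i : ℕ) : ℤ))
        (τ' := ((g * tt q (fun j => if j ∈ T then i' j else i j) : ℕ) : ℤ))
        (r := ∏ j ∈ T, ((q j (i j) : ℕ) : ℤ)) (d := ∏ j ∈ T, ((q j (i j) * q j (i' j) : ℕ) : ℤ))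
        (x1 := (x.1 : ℤ)) (x2 := (x.2 : ℤ)) (k := k)
        (prod_ne_zero_iff.2 fun j _ => hu0 j) (hid T) (hRN k hk)
  calc c' * (c / 2) / ((D : ℝ) ^ 2 * K) * ((Cv 2 H).card : ℝ)
      ≤ c' * (c / 2) / ((D : ℝ) ^ 2 * K) * (K * (X : ℝ) ^ 2) :=
        mul_le_mul_of_nonneg_left hX3 (by positivity)
    _ = c' * (c * (X : ℝ) ^ 2 / (D : ℝ) ^ 2 / 2) := by field_simp
    _ ≤ c' * (Ω.card : ℝ) := mul_le_mul_of_nonneg_left hΩge hc'.le
    _ ≤ (W.card : ℝ) := hcard'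
    _ ≤ _ := by exact_mod_cast hWle

end Pool.Agent.Y667.QK.R
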