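import Pool.Agent.Y667.QK.MainT
import Pool.Agent.Y667.QK.StmR
import Pool.Agent.Y667.PA.Stm

/-!
# Project QK, the main argument with the root numbers, part 1
-/

set_option autoImplicit false

namespace Pool.Agent.Y667.QK.R

open Finset Pool.Agent.W262.RK Pool.Agent.W307.RT Pool.Agent.W307.RS Pool.Agent.W307.SE
  Pool.Agent.W307.FK Pool.Agent.Y667.RP Pool.Agent.Y667.RZ Pool.Agent.Y667.PA
  Pool.Agent.Y285.RP

/-- the root number of the twist by `τ` of the pair `(a, b)` is `w` -/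
def RN (τ a b : ℕ) (w : ℤ) : Prop := ∀ k : ℤ, (a : ℤ) + b = 3 * k →
  Pool.Agent.Y667.PA.HasRootNumber
    ⟨0, 0, 0, ((cc ((τ : ℤ) * a) ((τ : ℤ) * b) ((τ : ℤ) * k)).1 : ℚ),
      ((cc ((τ : ℤ) * a) ((τ : ℤ) * b) ((τ : ℤ) * k)).2 : ℚ)⟩ w

/-- The pairs `(a, b)` of size `X` in the residue classes modulo `f D` for which the 2-Selmer groups
of the twists by `t` and by `f t` have orders `4` and at most `8` (in some order), with the root
numbers. -/
def GoodR (f β D t X : ℕ) (x : ℕ × ℕ) : Prop :=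
  X < 2 * x.1 ∧ x.1 ≤ X ∧ X < 8 * x.2 ∧ 4 * x.2 ≤ X ∧ x.1 % 3 = 1 ∧ x.2 % 3 = 2 ∧
    RC f β (f * D) x.1 x.2 ∧ Nat.Coprime x.1 x.2 ∧
    (Sel ((t : ℤ) * x.1) ((t : ℤ) * x.2)).Finite ∧
    (Sel (((f * t : ℕ) : ℤ) * x.1) (((f * t : ℕ) : ℤ) * x.2)).Finite ∧
    (((Sel ((t : ℤ) * x.1) ((t : ℤ) * x.2)).ncard = 4 ∧
        (Sel (((f * t : ℕ) : ℤ) * x.1) (((f * t : ℕ) : ℤ) * x.2)).ncard ≤ 8 ∧
        RN t x.1 x.2 1 ∧ RN (f * t) x.1 x.2 (-1)) ∨
      ((Sel ((t : ℤ) * x.1) ((t : ℤ) * x.2)).ncard ≤ 8 ∧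
        (Sel (((f * t : ℕ) : ℤ) * x.1) (((f * t : ℕ) : ℤ) * x.2)).ncard = 4 ∧
        RN t x.1 x.2 (-1) ∧ RN (f * t) x.1 x.2 1))

open Classical in
/-- **MAINT** with the root numbers -/
def St_MAINTR : Prop := ∀ f β : ℕ, Flip f β → ∀ m : ℕ, ∃ c : ℝ, 0 < c ∧ ∃ ε : ℝ, 0 < ε ∧ ∃ z : ℕ,
  ∀ D : ℕ, AdT (f * D) → (∀ q ∈ D.primeFactors, z < q) → ∑ q ∈ D.primeFactors, 1 / (q : ℝ) ≤ ε →
  ∃ X0 : ℕ, ∀ X : ℕ, X0 ≤ X → ∀ t ∈ D.divisors, t.primeFactors.card ≤ m →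
    c * (X : ℝ) ^ 2 / (D : ℝ) ^ 2 ≤ (((Icc 1 X ×ˢ Icc 1 X).filter (GoodR f β D t X)).card : ℝ)

/-- the inputs of the main argument -/
structure InpR : Prop where
  ng : St_NG
  vn : St_VN
  sel : St_SEL
  par : St_PAR
  low : St_LOW4
  pare : St_PARE
  root : St_ROOT
  abs : St_ABS

lemma sel_of (hVN : St_VN) (hSEL : St_SEL) (hPAR : St_PAR) (hLOW : St_LOW4) (hPARE : St_PARE)
    (hROOT : St_ROOT) (hABS : St_ABS) {f β D t z : ℕ}
    (hC : Ctx f β D t z) {s : Fin 3 → ℕ} (hD : Dat z s) (hDs : D.Coprime (∏ j, s j))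
    (hlt : s 1 < s 0)
    (heq : (s 0 : ℤ) - s 1 = 32 * s 2) (h8 : s 0 % 8 = 1) (h8' : s 1 % 8 = 1)
    (hRC : RC f β (f * D) (s 0) (s 1))
    (hσ : ∀ σ : ℤ, σ = -1 ∨ σ = 2 ∨ σ = -2 → ∃ p : ℕ, p.Prime ∧ p ∣ ∏ j, s j ∧ jacobiSym σ p = -1)
    (c1 : (Vt f t s (sgF (s 0) (s 1) (∏ j, s j))).ncard ≤ 8)
    (c2 : (Vt f (f * t) s (sgF (s 0) (s 1) (∏ j, s j))).ncard ≤ 8) :
    (Sel ((t : ℤ) * s 0) ((t : ℤ) * s 1)).Finite ∧
    (Sel (((f * t : ℕ) : ℤ) * s 0) (((f * t : ℕ) : ℤ) * s 1)).Finite ∧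
    (((Sel ((t : ℤ) * s 0) ((t : ℤ) * s 1)).ncard = 4 ∧
        (Sel (((f * t : ℕ) : ℤ) * s 0) (((f * t : ℕ) : ℤ) * s 1)).ncard ≤ 8 ∧
        RN t (s 0) (s 1) 1 ∧ RN (f * t) (s 0) (s 1) (-1)) ∨
      ((Sel ((t : ℤ) * s 0) ((t : ℤ) * s 1)).ncard ≤ 8 ∧
        (Sel (((f * t : ℕ) : ℤ) * s 0) (((f * t : ℕ) : ℤ) * s 1)).ncard = 4 ∧
        RN t (s 0) (s 1) (-1) ∧ RN (f * t) (s 0) (s 1) 1)) := by
  have hf17 := hC.f17
  have hzf := hC.zf
  have hz2 : 2 ≤ z := by omega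
  have hRm : ∀ τ : ℕ, τ ∣ f * D → RC f β τ (s 0) (s 1) := fun τ hτ q hq =>
    hRC q (Nat.primeFactors_mono hτ hC.adD.sqf.ne_zero hq)
  have hft : f * t ∣ f * D := Nat.mul_dvd_mul_left _ hC.tD
  have htd : t ∣ f * D := hC.tD.mul_left _
  have S1 := hSEL f β t s hC.flip hC.adt hD.sqf (hD.odd hz2) (hC.copt hDs) heq h8 h8' (hRm t htd)
  have S2 := hSEL f β (f * t) s hC.flip hC.adft hD.sqf (hD.odd hz2) (hC.copft hD hDs) heq h8 h8'
    (hRm _ hft)
  have F1 := (hVN f t s (sgF (s 0) (s 1) (∏ j, s j)) hC.adt hD.sqf (hD.odd hz2) (hC.copt hDs)).1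
  have F2 := (hVN f (f * t) s (sgF (s 0) (s 1) (∏ j, s j)) hC.adft hD.sqf (hD.odd hz2)
    (hC.copft hD hDs)).1
  have n1 := Set.ncard_le_ncard S1 F1
  have n2 := Set.ncard_le_ncard S2 F2
  have G1 := F1.subset S1
  have G2 := F2.subset S2
  obtain ⟨k, k', hk, hk', hodd⟩ := hPAR f β t s hC.flip hC.adft hD.sqf (hD.odd hz2)
    (hC.copft hD hDs) heq h8 h8' (hRm _ hft) hσ
  have hs0 : Squarefree (s 0) := hD.sqf.squarefree_of_dvd (Dat.dvd 0)
  have hpos1 : 0 < s 1 := Nat.pos_of_ne_zero (hD.ne 1)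
  have low : ∀ τ : ℕ, τ ≠ 0 → Squarefree τ → τ.Coprime (s 0) →
      (Sel ((τ : ℤ) * s 0) ((τ : ℤ) * s 1)).Finite →
      4 ≤ (Sel ((τ : ℤ) * s 0) ((τ : ℤ) * s 1)).ncard := by
    intro τ hτ0 hτs hτc hfin
    have hτ1 : 0 < τ := Nat.pos_of_ne_zero hτ0
    apply hLOW _ _ _ _ _ _ hfin
    · have h1 : Squarefree (τ * s 0) := (Nat.squarefree_mul hτc).2 ⟨hτs, hs0⟩
      have h2 : ((τ : ℤ) * s 0) = ((τ * s 0 : ℕ) : ℤ) := by push_cast; rfl
      rw [h2]
      exact Int.squarefree_natCast.2 h1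
    · have h1 : 1 < τ * s 0 := by
        have : s 0 ≤ τ * s 0 := Nat.le_mul_of_pos_left _ hτ1
        omega
      exact_mod_cast h1
    · have h1 : 0 < τ * s 1 := Nat.mul_pos hτ1 hpos1
      exact_mod_cast h1
    · have h1 : τ * s 1 < τ * s 0 := Nat.mul_lt_mul_of_pos_left hlt hτ1
      exact_mod_cast h1
  have hft0 : f * t ≠ 0 := mul_ne_zero hC.flip.pr.ne_zero hC.t0
  have low1 := low t hC.t0 hC.adt.sqf ((hC.copt hDs).coprime_dvd_right (Dat.dvd 0)) G1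
  have low2 := low (f * t) hft0 hC.adft.sqf ((hC.copft hD hDs).coprime_dvd_right (Dat.dvd 0)) G2
  refine ⟨G1, G2, ?_⟩
  rw [hk] at c1 n1
  rw [hk'] at c2 n2
  have hk3 : k ≤ 3 := by
    by_contra hcon
    push Not at hcon
    have := Nat.pow_le_pow_right (n := 2) (by norm_num) hcon
    omega
  have hk3' : k' ≤ 3 := by
    by_contra hcon
    push Not at hcon
    have := Nat.pow_le_pow_right (n := 2) (by norm_num) hcon
    omega
  have hDP : DP s := ⟨hD.sqf, hD.odd hz2, heq, h8, h8'⟩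
  obtain ⟨k0, kt, hk0, hkt, hev⟩ := hPARE f β t s hC.flip hC.adft hD.sqf (hD.odd hz2)
    (hC.copft hD hDs) heq h8 h8' (hRm _ hft) hσ
  obtain ⟨k1, hk1, hev1⟩ := hABS s hD.sqf (hD.odd hz2) heq h8 h8' hσ
  have e1 : kt = k := Nat.pow_right_injective (le_refl 2) (hkt.symm.trans hk)
  have e2 : k1 = k0 := Nat.pow_right_injective (le_refl 2) (hk1.symm.trans hk0)
  subst e1
  subst e2
  obtain ⟨n, hn⟩ : ∃ n, n = ((∏ j, s j).primeFactors \ sgF (s 0) (s 1) (∏ j, s j)).card :=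
    ⟨_, rfl⟩
  rw [← hn] at hev1
  have hnk : Even (n + kt) := by
    obtain ⟨x, hx⟩ := hev
    obtain ⟨y, hy⟩ := hev1
    exact ⟨x + y - k1, by omega⟩
  have hfnt : ¬ f ∣ t := by
    intro hft'
    have h1 := hC.adft.sqf f (Nat.mul_dvd_mul_left f hft')
    exact hC.flip.pr.one_lt.ne' (Nat.isUnit_iff.1 h1)
  have R1 : RN t (s 0) (s 1) ((-1) ^ n) := by
    intro q hq
    have := hROOT f β t s hC.flip hC.adt hDP (hC.copt hDs) (hRm t htd) q hq
    rw [if_neg hfnt, add_zero, ← hn] at this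
    exact this
  have R2 : RN (f * t) (s 0) (s 1) ((-1) ^ (n + 1)) := by
    intro q hq
    have := hROOT f β (f * t) s hC.flip hC.adft hDP (hC.copft hD hDs) (hRm _ hft) q hq
    rw [if_pos (dvd_mul_right f t), ← hn] at this
    exact this
  rcases Nat.lt_or_ge kt 3 with h | h
  · left
    have h1 : 2 ^ kt ≤ 2 ^ 2 := Nat.pow_le_pow_right (by norm_num) (by omega)
    have hk2 : kt = 2 := by
      by_contra hne
      have h2 : 2 ^ kt ≤ 2 ^ 1 := Nat.pow_le_pow_right (by norm_num) (by omega)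
      omega
    have hne : Even n := by
      rw [hk2] at hnk
      exact (Nat.even_add.1 hnk).2 (by decide)
    rw [hne.neg_one_pow] at R1
    rw [pow_succ, hne.neg_one_pow, one_mul] at R2
    exact ⟨by omega, by omega, R1, R2⟩
  · right
    have hk3e : kt = 3 := by omega
    have h0 : k' ≠ 3 := by
      rintro rfl
      rw [hk3e] at hodd
      exact absurd hodd (by decide)
    have h1 : 2 ^ k' ≤ 2 ^ 2 := Nat.pow_le_pow_right (by norm_num) (by omega)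
    have hno : Odd n := by
      rw [← Nat.not_even_iff_odd]
      intro hne
      rw [hk3e] at hnk
      exact absurd ((Nat.even_add.1 hnk).1 hne) (by decide)
    rw [hno.neg_one_pow] at R1
    rw [pow_succ, hno.neg_one_pow, neg_mul_neg, one_mul] at R2
    exact ⟨by omega, by omega, R1, R2⟩

section cls

variable {f β D t z Q0 a0 b0 X : ℕ} {s : Fin 3 → ℕ} {E : Finset ℕ} {y : ℕ × ℕ}

/-- the conditions for a good pair -/
lemma goodR_of (hI : InpR) (hC : Ctx f β D t z) (hM : ModK f β D z Q0 a0 b0)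
    (hD : Dat z s) (hDs : D.Coprime (∏ j, s j)) (hy : y ∈ AA X Q0 a0 b0 s E)
    (hl : (vv s y).Prime) (hls : ¬ vv s y ∣ ∏ j, s j) (hne : y.1 ≠ y.2)
    (h1 : ¬ y.1 ∣ ∏ j, s j) (h2 : ¬ y.2 ∣ ∏ j, s j) (h3 : z < y.1) (h4 : z < y.2)
    (hG : Gd f t s E) :
    GoodR f β D t X (s 0 * y.1, s 1 * y.2) := by
  have hf17 := hC.f17
  have hzf := hC.zf
  have hz2 : 2 ≤ z := by omega
  have heq := AA_eq hz2 hD hM hy
  have hlt := AA_lt hy
  have hmod := AA_mod64 hM hy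
  have hlz : z < vv s y := by
    by_contra hcon
    push Not at hcon
    exact AA_small hz2 hD hM hy hl (Or.inl hcon) dvd_rfl
  have hlD : ¬ vv s y ∣ D := fun h => AA_small hz2 hD hM hy hl (Or.inr h) dvd_rfl
  obtain ⟨hmD, hnD⟩ := AA_nd hM hC hy
  have hRC := AA_RC hM hC hy
  have hmem := hy
  unfold AA at hmem
  rw [mem_filter] at hmem
  obtain ⟨-, hm, hn, k1, k2, k3, k4, k5, k6, -, k8⟩ := hmem
  have he' : s 0 * y.1 = s 1 * y.2 + 32 * (s 2 * vv s y) := by omega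
  have hml : y.1 ≠ vv s y := by
    intro h
    have h5 : y.1 ∣ s 1 * y.2 := by
      have h6 : y.1 ∣ s 0 * y.1 := dvd_mul_left _ _
      rw [he'] at h6
      refine (Nat.dvd_add_left (dvd_mul_of_dvd_right ?_ _)).1 h6
      rw [← h]
      exact dvd_mul_left _ _
    rcases (hm.dvd_mul).1 h5 with h6 | h6
    · exact h1 (h6.trans (Dat.dvd 1))
    · exact hne ((Nat.prime_dvd_prime_iff_eq hm hn).1 h6)
  have hnl : y.2 ≠ vv s y := by
    intro h
    have h5 : y.2 ∣ s 0 * y.1 := by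
      rw [he', ← h]
      exact dvd_add (dvd_mul_left _ _) (dvd_mul_of_dvd_right (dvd_mul_left _ _) _)
    rcases (hn.dvd_mul).1 h5 with h6 | h6
    · exact h2 (h6.trans (Dat.dvd 0))
    · exact hne ((Nat.prime_dvd_prime_iff_eq hn hm).1 h6).symm
  have hG' : Gd f t s (sgF ((s 0 * y.1 : ℕ) : ℤ) ((s 1 * y.2 : ℕ) : ℤ) (∏ j, s j)) := by
    rw [k8]; exact hG
  obtain ⟨s', e0, e1, e2, e3, d', cd', c1, c2⟩ := three hI.ng hC hD hDs ((s 0 * y.1 : ℕ) : ℤ)
    ((s 1 * y.2 : ℕ) : ℤ) hm hn hl hne hml hnl h1 h2 hls h3 h4 hlz hmD hnD hlD hG'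
  have hQ3 : 3 ∣ Q0 := hM.dvd 3 Nat.prime_three (Or.inl (by omega))
  have hsel := sel_of hI.vn hI.sel hI.par hI.low hI.pare hI.root hI.abs hC d' cd' (by rw [e0, e1]; exact hlt)
    (by rw [e0, e1, e2, he']; push_cast; ring) (by rw [e0]; omega) (by rw [e1]; omega)
    (by rw [e0, e1]; exact hRC)
    (by
      intro σ hσ
      obtain ⟨p, hp, hps, hpj⟩ := sigma_of hC.adt (hD.odd hz2) hG.1 hσ
      refine ⟨p, hp, ?_, hpj⟩
      rw [e3]
      exact ((hps.mul_right _).mul_right _).mul_right _)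
    (by rw [e0, e1]; exact c1) (by rw [e0, e1]; exact c2)
  rw [e0, e1] at hsel
  refine ⟨k1, k2, k3, k4, ?_, ?_, hRC, ?_, hsel⟩
  · have h5 : s 0 * y.1 ≡ a0 [MOD 3] := k5.of_dvd hQ3
    have h6 := hM.ap 3 Nat.prime_three le_rfl (Or.inl (by omega))
    rw [Nat.ModEq] at h5
    show (s 0 * y.1) % 3 = 1
    omega
  · have h5 : s 1 * y.2 ≡ b0 [MOD 3] := k6.of_dvd hQ3
    have h6 := hM.bp 3 Nat.prime_three le_rfl (Or.inl (by omega)) (by omega)
    rw [Nat.ModEq] at h5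
    show (s 1 * y.2) % 3 = 2
    omega
  · show Nat.Coprime (s 0 * y.1) (s 1 * y.2)
    have h5 : (s' 0).Coprime (s' 1) := d'.cop.1
    rw [e0, e1] at h5
    exact h5

/-- classification -/
theorem cls (hI : InpR) (hC : Ctx f β D t z) (hB : Big z X) (hM : ModK f β D z Q0 a0 b0)
    (hD : Dat z s) (hDs : D.Coprime (∏ j, s j))
    (hS : Sml X s) (hG : Gd f t s E) (hy : y ∈ AA X Q0 a0 b0 s E)
    (hr : Rg3 X (vv s y)) :
    GoodR f β D t X (s 0 * y.1, s 1 * y.2) ∨ Exc X s y ∨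
      ∃ q ∈ Pt X, ∃ F ∈ BS f t s E q, y ∈ AA X Q0 a0 b0 (up s q) F ∧ Rg3 X (vv (up s q) y) := by
  classical
  have hf17 := hC.f17
  have hzf := hC.zf
  have hz2 : 2 ≤ z := by omega
  have hX1 : 1 ≤ X := by have := hB.two; omega
  by_cases hexc : Exc X s y
  · exact Or.inr (Or.inl hexc)
  have hne : y.1 ≠ y.2 := fun h => hexc (Or.inl h)
  have hns : ¬ ∃ q : ℕ, q.Prime ∧ (X : ℝ) ^ (1 / 4 : ℝ) ≤ q ∧ q ^ 2 ∣ vv s y :=
    fun h => hexc (Or.inr h)
  have hsize := AA_size hz2 hD hM hy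
  have heq := AA_eq hz2 hD hM hy
  obtain ⟨hb1, hb2, hb3⟩ := AA_big hB hS hy
  have hmem := hy
  unfold AA at hmem
  rw [mem_filter] at hmem
  obtain ⟨hII, hm, hn, k1, k2, k3, k4, k5, k6, k7, k8⟩ := hmem
  have hs2 : 0 < s 2 := Nat.pos_of_ne_zero (hD.ne 2)
  have hz4 : (z : ℝ) ≤ (X : ℝ) ^ (1 / 2 : ℝ) := by
    refine hB.r4.le.trans ?_
    exact Real.rpow_le_rpow_of_exponent_le (by exact_mod_cast hX1) (by norm_num)
  have hzt := hb3 z hz4
  have hv1 : 1 < vv s y := by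
    by_contra hcon
    push Not at hcon
    have h1 := hB.le (hS 2) (v := 1) (by
      rw [Nat.cast_one]
      exact Real.one_le_rpow (by exact_mod_cast hX1) (by norm_num))
    have h2 : s 2 * vv s y ≤ s 2 * 1 := Nat.mul_le_mul_left _ hcon
    omega
  have hvX : vv s y < X := by
    have : vv s y ≤ s 2 * vv s y := Nat.le_mul_of_pos_left _ hs2
    omega
  have hgt : ∀ p : ℕ, p.Prime → p ∣ vv s y → ∀ j, s j < p := by
    intro p hp h j
    have h1 := hr p hp h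
    have h0 := third hX1
    have h2 := hS j
    have h3 := hB.k4
    have : (s j : ℝ) < p := by linarith
    exact_mod_cast this
  rcases class3 hv1 hvX hr with h | h | h
  · left
    exact goodR_of hI hC hM hD hDs hy h (nd_of_gt h (hgt _ h dvd_rfl) hD) hne
      (nd_of_gt hm hb1 hD) (nd_of_gt hn hb2 hD) hzt.1 hzt.2 hG
  · obtain ⟨q, h5, h6, h7⟩ := h
    exact absurd ⟨q, h5, (third hX1).trans h6, h7⟩ hns
  · obtain ⟨q1, q2, hq1, hq2, hq12, hl, hr1, hr2⟩ := h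
    have hq1v : q1 ∣ vv s y := by rw [hl]; exact dvd_mul_right _ _
    have hq1X : q1 < X := by
      have : q1 ≤ vv s y := Nat.le_of_dvd (by omega) hq1v
      omega
    have hPt : q1 ∈ Pt X := by
      unfold Pt
      rw [mem_filter, mem_Icc]
      exact ⟨⟨hq1.one_lt.le, hq1X.le⟩, hq1, hr1, hr2⟩
    have hq1s : ¬ q1 ∣ ∏ j, s j :=
      nd_of_gt hq1 (hgt q1 hq1 hq1v) hD
    have hq2s : ¬ q2 ∣ ∏ j, s j :=
      nd_of_gt hq2 (hgt q2 hq2 (by rw [hl]; exact dvd_mul_left _ _)) hD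
    have hq1z : z < q1 := by
      have h1 := hB.r4
      have h0 := third hX1
      have : (z : ℝ) < q1 := by linarith
      exact_mod_cast this
    have hq1D : ¬ q1 ∣ D := fun h => AA_small hz2 hD hM hy hq1 (Or.inr h) hq1v
    have hD' := Dat_up hD hq1 hq1z hq1s
    have hDs' : D.Coprime (∏ j, up s q1 j) := by
      rw [up_prod]
      exact Nat.Coprime.mul_right hDs ((Nat.Prime.coprime_iff_not_dvd hq1).2 hq1D).symm
    set F := sgF ((s 0 * y.1 : ℕ) : ℤ) ((s 1 * y.2 : ℕ) : ℤ) (∏ j, up s q1 j) with hF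
    have heq' : s 0 * y.1 - s 1 * y.2 = 32 * ((s 2 * q1) * q2) := by
      rw [heq, hl]; ring
    have htF : y ∈ AA X Q0 a0 b0 (up s q1) F := by
      unfold AA
      rw [mem_filter, up_zero, up_one, up_two]
      refine ⟨hII, hm, hn, k1, k2, k3, k4, k5, k6, ?_, rfl⟩
      rw [heq']
      exact (dvd_mul_right _ _).mul_left _
    have hFE : F = E ∨ F = insert q1 E := by
      rw [hF, up_prod]
      have := sgF_up ((s 0 * y.1 : ℕ) : ℤ) ((s 1 * y.2 : ℕ) : ℤ) (∏ j, s j) q1 hD.sqf.ne_zero hq1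
      rw [k8] at this
      exact this
    have hvv : vv (up s q1) y = q2 := by
      have h1 := AA_eq hz2 hD' hM htF
      rw [up_zero, up_one, up_two, heq'] at h1
      have h2 : 0 < 32 * (s 2 * q1) := by have := hq1.pos; positivity
      have h3 : 32 * (s 2 * q1) * q2 = 32 * (s 2 * q1) * vv (up s q1) y := by
        rw [mul_assoc, h1, ← mul_assoc]
      exact (Nat.eq_of_mul_eq_mul_left h2 h3).symm
    by_cases hFb : Gd f t (up s q1) F
    · left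
      have hq1m : ¬ y.1 ∣ ∏ j, up s q1 j := by
        rw [up_prod]
        intro h
        rcases (hm.dvd_mul).1 h with h | h
        · exact nd_of_gt hm hb1 hD h
        · have h1 := (Nat.prime_dvd_prime_iff_eq hm hq1).1 h
          have := (hb3 q1 hr2).1
          omega
      have hq1n : ¬ y.2 ∣ ∏ j, up s q1 j := by
        rw [up_prod]
        intro h
        rcases (hn.dvd_mul).1 h with h | h
        · exact nd_of_gt hn hb2 hD h
        · have h1 := (Nat.prime_dvd_prime_iff_eq hn hq1).1 h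
          have := (hb3 q1 hr2).2
          omega
      have hq12' : ¬ vv (up s q1) y ∣ ∏ j, up s q1 j := by
        rw [up_prod, hvv]
        intro h
        rcases (hq2.dvd_mul).1 h with h | h
        · exact hq2s h
        · have h1 := (Nat.prime_dvd_prime_iff_eq hq2 hq1).1 h
          omega
      have h5 := goodR_of hI hC hM hD' hDs' htF (by rw [hvv]; exact hq2) hq12' hne hq1m hq1n
        hzt.1 hzt.2 hFb
      rw [up_zero, up_one] at h5
      exact h5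
    · right; right
      refine ⟨q1, hPt, F, ?_, htF, ?_⟩
      · unfold BS
        rw [mem_filter, mem_insert, mem_singleton]
        exact ⟨hFE, hFb⟩
      · rw [hvv]
        intro p hp hpq
        rw [(Nat.prime_dvd_prime_iff_eq hp hq2).1 hpq]
        have : (q1 : ℝ) ≤ q2 := by exact_mod_cast hq12.le
        linarith

end cls

end Pool.Agent.Y667.QK.R
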