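import Pool.Agent.Y667.QKR.Core
import Pool.Agent.Y667.QK.Main0
import Pool.Agent.Y388.QK.Deg
import Pool.Agent.Y388.QK.Flip
import Pool.Agent.Y858.QK.ROOT
import Pool.Agent.Y667.PA.MainR

/-!
# Project QK: the assembly, with the root numbers
-/

set_option autoImplicit false

namespace Pool.Agent.Y667.QK.R

open Finset Filter Pool.Agent.W262.RK Pool.Agent.W307.RT Pool.Agent.W307.RS Pool.Agent.W307.SE
  Pool.Agent.W307.FK Pool.Agent.Y667.RP Pool.Agent.Y667.RZ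

theorem inpR (hP : St_PARE) : InpR where
  ng := Pool.Agent.Y448.QK.NG
  vn := Pool.Agent.Y448.QK.VN
  sel := Pool.Agent.Y587.QK.SEL
  par := Pool.Agent.Y655.QK.PAR Pool.Agent.Y212.RZ.LAG
  low := Pool.Agent.Y212.RZ.LOW4
  pare := hP
  root := Pool.Agent.Y858.QK.ROOT
  abs := Pool.Agent.Y667.PA.abs

/-- **Many good pairs, with the root numbers.** -/
theorem maintR (hP : St_PARE) : St_MAINTR :=
  MAINTR Pool.Agent.Y246.RZ.SV3 Pool.Agent.Y153.RP.CNT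
    (Pool.Agent.Y515.RP.ERR Pool.Agent.Y515.RP.EE) Pool.Agent.Y515.RP.EE
    (Pool.Agent.Y202.QK.GD Pool.Agent.Y448.QK.VN Pool.Agent.Y448.QK.KILL Pool.Agent.Y448.QK.NG)
    (inpR hP) (Pool.Agent.Y665.QK.HALFt Pool.Agent.Y448.QK.NG)

open Classical in
/-- **Main theorem of the project**, ordering by the height. -/
theorem main_h (hP : St_PARE) (m N : ℕ) :
    ∃ L : Finset (Fin m → ℕ), (∀ d ∈ L, Tup m N d) ∧ ∃ δ : ℝ, 0 < δ ∧ ∃ H0 : ℕ, ∀ H : ℕ, H0 ≤ H →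
      ∃ d ∈ L, δ * ((Cv 2 H).card : ℝ) ≤
        (((Cv 2 H).filter (TwR (fun j => (d j : ℤ)))).card : ℝ) := by
  obtain ⟨β, hfl⟩ := Pool.Agent.Y388.QK.FLIP 17 (by norm_num) (by norm_num)
  obtain ⟨n, q, hinj, hpr, δ, hδ, H0, h⟩ := core (maintR hP) Pool.Agent.Y496.QK.BOX
    Pool.Agent.Y697.QK.CVT Pool.Agent.Y388.QK.PRM hfl m N
  let g : (Fin m → Fin n) × (Fin m → Fin n) → (Fin m → ℕ) :=
    fun t j => q j (t.1 j) * q j (t.2 j)
  refine ⟨((univ : Finset ((Fin m → Fin n) × (Fin m → Fin n))).filter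
    (fun t => ∀ j, t.1 j ≠ t.2 j)).image g, ?_, δ, hδ, H0, fun H hH => ?_⟩
  · intro d hd
    rw [mem_image] at hd
    obtain ⟨t, ht, rfl⟩ := hd
    rw [mem_filter] at ht
    refine ⟨fun j => q j (t.1 j), fun j => q j (t.2 j), fun j => rfl, fun j => hpr _ _,
      fun j => hpr _ _, ?_, ?_, ?_⟩
    · intro x y hxy
      exact (hinj _ _ _ _ hxy).1
    · intro x y hxy
      exact (hinj _ _ _ _ hxy).1
    · intro x y hxy
      obtain ⟨h1, h2⟩ := hinj _ _ _ _ hxy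
      subst h1
      exact ht.2 x h2
  · obtain ⟨i, i', hne, hc⟩ := h H hH
    refine ⟨g (i, i'), mem_image.2 ⟨(i, i'), mem_filter.2 ⟨mem_univ _, hne⟩, rfl⟩, ?_⟩
    exact hc

open Classical in
/-- **Main theorem of the project**, ordering by the minimal discriminant. -/
theorem main_d (hP : St_PARE) (m N : ℕ) :
    ∃ L : Finset (Fin m → ℕ), (∀ d ∈ L, Tup m N d) ∧ ∃ δ : ℝ, 0 < δ ∧ ∃ Z0 : ℕ, ∀ Z : ℕ, Z0 ≤ Z →
      ∃ d ∈ L, δ * ((Pool.Agent.TH344.DS.Dv Z).card : ℝ) ≤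
        (((Pool.Agent.TH344.DS.Dv Z).filter (TwR (fun j => (d j : ℤ)))).card : ℝ) := by
  obtain ⟨L, hL, h⟩ := main_h hP m N
  exact ⟨L, hL, disc_ex (fun d => d ∈ L) (fun d => TwR (fun j => (d j : ℤ))) h⟩

end Pool.Agent.Y667.QK.R
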