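import Pool.Agent.Y667.QKR.Main0
import Pool.Agent.Y667.QK.QF

/-!
# Project QK: the rank over `ℚ(√f)` and the root numbers, `f` a prime congruent to 1 modulo 8
-/

set_option autoImplicit false

namespace Pool.Agent.Y667.QK.R

open Finset Pool.Agent.W262.RK Pool.Agent.W307.RT Pool.Agent.W307.RS Pool.Agent.W307.SE
  Pool.Agent.W307.FK Pool.Agent.Y667.RP Pool.Agent.Y667.RZ Pool.Agent.Y667.PA
open Pool.Agent.Y285.RP Pool.Agent.Y285.RZ Pool.Agent.Y890.RZ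

/-- the root number of the pair -/
def RW (k : ℤ × ℤ) (w : ℤ) : Prop := HasRootNumber ⟨0, 0, 0, (k.1 : ℚ), (k.2 : ℚ)⟩ w

/-- the target -/
def TQR (f : ℕ) (k : ℤ × ℤ) : Prop :=
  (RW k 1 ∧ RW ((f : ℤ) ^ 2 * k.1, (f : ℤ) ^ 3 * k.2) (-1) ∧
    Module.finrank ℤ (Sh k.1 k.2).toAffine.Point = 0 ∧
    Module.finrank ℤ (Sh ((f : ℤ) ^ 2 * k.1) ((f : ℤ) ^ 3 * k.2)).toAffine.Point ≤ 1) ∨
  (RW k (-1) ∧ RW ((f : ℤ) ^ 2 * k.1, (f : ℤ) ^ 3 * k.2) 1 ∧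
    Module.finrank ℤ (Sh k.1 k.2).toAffine.Point ≤ 1 ∧
    Module.finrank ℤ (Sh ((f : ℤ) ^ 2 * k.1) ((f : ℤ) ^ 3 * k.2)).toAffine.Point = 0)

lemma tqr {f : ℕ} (hf0 : 0 < f) {a b : ℕ} {k : ℤ} (h : (a : ℤ) + b = 3 * k) (hb : 1 ≤ b)
    (hab : b < a) (hf : (Sel (a : ℤ) b).Finite) (hf' : (Sel ((f : ℤ) * a) ((f : ℤ) * b)).Finite)
    (hn : ((Sel (a : ℤ) b).ncard = 4 ∧ (Sel ((f : ℤ) * a) ((f : ℤ) * b)).ncard ≤ 8 ∧
        RN 1 a b 1 ∧ RN f a b (-1)) ∨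
      ((Sel (a : ℤ) b).ncard ≤ 8 ∧ (Sel ((f : ℤ) * a) ((f : ℤ) * b)).ncard = 4 ∧
        RN 1 a b (-1) ∧ RN f a b 1)) : TQR f (cc a b k) := by
  have hfI : (0 : ℤ) < f := by exact_mod_cast hf0
  have hbI : (1 : ℤ) ≤ b := by exact_mod_cast hb
  have habI : (b : ℤ) < a := by exact_mod_cast hab
  obtain ⟨-, -, h1⟩ := tgw Pool.Agent.Y212.RZ.SELC2 h hbI habI hf
  obtain ⟨-, -, h2⟩ := tgw Pool.Agent.Y212.RZ.SELC2 (a := f * a) (b := f * b) (k := f * k)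
    (by linear_combination (f : ℤ) * h) (by nlinarith) (by nlinarith) hf'
  rw [QF.ccf] at h2
  dsimp only at h2
  have key : ∀ r n : ℕ, (1 ≤ r → 2 ^ (r + 2) ≤ n) → ∀ m : ℕ, n ≤ 2 ^ (m + 2) → r ≤ m := by
    intro r n h m hm
    rcases Nat.eq_zero_or_pos r with h0 | h0
    · omega
    · have := (Nat.pow_le_pow_iff_right (by norm_num : 1 < 2)).1 ((h h0).trans hm)
      omega
  have g1 : ∀ w, RN 1 a b w → RW (cc a b k) w := by
    intro w hw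
    have := hw k h
    rw [Nat.cast_one, one_mul, one_mul, one_mul] at this
    exact this
  have g2 : ∀ w, RN f a b w → RW ((f : ℤ) ^ 2 * (cc a b k).1, (f : ℤ) ^ 3 * (cc a b k).2) w := by
    intro w hw
    have := hw k h
    rw [QF.ccf] at this
    exact this
  rcases hn with ⟨n1, n2, w1, w2⟩ | ⟨n1, n2, w1, w2⟩
  · have r1 := key _ _ h1 0 (by rw [n1]; norm_num)
    have r2 := key _ _ h2 1 (n2.trans (by norm_num))
    exact Or.inl ⟨g1 _ w1, g2 _ w2, by omega, r2⟩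
  · have r1 := key _ _ h1 1 (n1.trans (by norm_num))
    have r2 := key _ _ h2 0 (by rw [n2]; norm_num)
    exact Or.inr ⟨g1 _ w1, g2 _ w2, r1, by omega⟩

open Classical in
/-- **The rank over `ℚ(√f)` and the root numbers for a positive proportion of the curves.** -/
theorem curvesQR (hP : St_PARE) {f : ℕ} (hf : f.Prime) (h8 : f % 8 = 1) :
    ∃ c : ℝ, 0 < c ∧ ∃ H0 : ℕ, ∀ H : ℕ, H0 ≤ H →
      c * ((Cv 2 H).card : ℝ) ≤ (((Cv 2 H).filter (TQR f)).card : ℝ) := by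
  obtain ⟨β, hfl⟩ := Pool.Agent.Y388.QK.FLIP f hf h8
  have hf0 := hfl.pr.pos
  obtain ⟨c, hc, ε, hε, z, hM⟩ := maintR hP f β hfl 0
  obtain ⟨X0, hX0⟩ := hM 1 (QF.adT_f hfl.pr hfl.m8) (by simp) (by simp [hε.le])
  obtain ⟨K, hK, hcv⟩ := Pool.Agent.Y697.QK.CVT 1 one_pos
  obtain ⟨H0, hH0⟩ := hcv X0
  refine ⟨c / K, by positivity, H0, fun H hH => ?_⟩
  obtain ⟨X, hX1, hX2, hX3, hX4⟩ := hH0 H hH
  have h1 := hX0 X hX1 1 (by simp) (by simp)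
  rw [Nat.cast_one, one_pow, div_one] at h1
  set G := (Icc 1 X ×ˢ Icc 1 X).filter (GoodR f β 1 1 X) with hG
  have a1 : G.card ≤ ((Cv 2 H).filter (TQR f)).card := by
    refine hX4 1 G _ one_pos le_rfl squarefree_one (fun x hx => ?_) fun x hx k hk => ?_
    · rw [hG, mem_filter] at hx
      obtain ⟨-, g1, g2, g3, g4, g5, g6, g7, g8, -⟩ := hx
      exact ⟨g1, g2, g3, g4, g5, g6, g8⟩
    · rw [hG, mem_filter] at hx
      obtain ⟨-, g1, g2, g3, g4, g5, g6, g7, g8, g9, g10, g11⟩ := hx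
      rw [Nat.cast_one, one_mul, one_mul] at g9 g11
      rw [mul_one] at g10 g11
      rw [Nat.cast_one, one_mul, one_mul, one_mul]
      exact tqr hf0 hk (by omega) (by omega) g9 g10 g11
  have h4 : (G.card : ℝ) ≤ (((Cv 2 H).filter (TQR f)).card : ℝ) := by exact_mod_cast a1
  calc c / K * ((Cv 2 H).card : ℝ) ≤ c / K * (K * (X : ℝ) ^ 2) :=
        mul_le_mul_of_nonneg_left hX3 (by positivity)
    _ = c * (X : ℝ) ^ 2 := by field_simp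
    _ ≤ (G.card : ℝ) := h1
    _ ≤ _ := h4

end Pool.Agent.Y667.QK.R
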